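import Mathlib
import Pool.Agent.Q280.Phi21

set_option autoImplicit false

namespace Pool.Agent.Results.MP_2e34cc_co.DenominatorsShiftABC

open PowerSeries Pool.Agent.Q280.Phi21

section general

variable {K : Type*} [Field K] {q a b c : K}

theorem L1 (hc : ∀ k : ℕ, 1 - c * q ^ k ≠ 0) (hq : ∀ k : ℕ, 1 - q * q ^ k ≠ 0) :
    rescale q (phi q a b c) = phi q a b c
      - X * (C ((1 - a) * (1 - b) / (1 - c)) * phi q (a * q) (b * q) (c * q)) := by
  have hc0 : 1 - c ≠ 0 := by simpa using hc 0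
  ext n
  cases n with
  | zero => simp [phi]
  | succ n =>
    have h1 : qp q (c * q) n ≠ 0 := qp_ne (hc_shift hc) n
    have h2 : qp q q n ≠ 0 := hq_ne hq n
    have h3 := hq n
    rw [map_sub, coeff_succ_X_mul, coeff_C_mul, coeff_rescale]
    simp only [phi, coeff_mk]
    rw [qp_succ' q a, qp_succ' q b, qp_succ' q c, qp_succ q q, pow_succ']
    generalize q ^ n = x at h3 ⊢
    field_simp
    ring

theorem L2 (hc : ∀ k : ℕ, 1 - c * q ^ k ≠ 0) (hq : ∀ k : ℕ, 1 - q * q ^ k ≠ 0) :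
    (C c - C (a * b * q) * X) * rescale q (phi q (a * q) (b * q) (c * q)) =
      (1 - C (a + b - a * b) * X) * phi q (a * q) (b * q) (c * q) - C (1 - c) * phi q a b c := by
  have hc0 : 1 - c ≠ 0 := by simpa using hc 0
  ext n
  cases n with
  | zero =>
    have h0 : constantCoeff (rescale q (phi q (a * q) (b * q) (c * q))) = 1 := by
      rw [← coeff_zero_eq_constantCoeff_apply, coeff_rescale, coeff_zero_eq_constantCoeff_apply, constCoeff_phi]
      simp
    rw [coeff_zero_eq_constantCoeff_apply, coeff_zero_eq_constantCoeff_apply]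
    simp only [map_mul, map_sub, h0, constCoeff_phi, map_one, constantCoeff_C, constantCoeff_X]
    ring
  | succ n =>
    have h1 : qp q (c * q) n ≠ 0 := qp_ne (hc_shift hc) n
    have h2 : qp q q n ≠ 0 := hq_ne hq n
    have h3 := hq n
    have h4 := hc_shift hc n
    obtain ⟨u, hu⟩ : ∃ u, u = a * b * q := ⟨_, rfl⟩
    obtain ⟨v, hv⟩ : ∃ v, v = a + b - a * b := ⟨_, rfl⟩
    rw [← hu, ← hv]
    rw [sub_mul, sub_mul, one_mul, map_sub, map_sub, map_sub, mul_assoc, mul_assoc, coeff_C_mul, coeff_C_mul,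
      coeff_C_mul, coeff_C_mul, coeff_succ_X_mul, coeff_succ_X_mul, coeff_rescale, coeff_rescale, hu, hv]
    simp only [phi, coeff_mk]
    rw [qp_succ' q a, qp_succ' q b, qp_succ' q c, qp_succ q q, qp_succ q (a * q), qp_succ q (b * q),
      qp_succ q (c * q), pow_succ']
    generalize q ^ n = x at h3 h4 ⊢
    field_simp
    ring

/-- the ratio -/
noncomputable def S (q a b c : K) : PowerSeries K := phi q (a * q) (b * q) (c * q) * (phi q a b c)⁻¹

theorem riccati (hc : ∀ k : ℕ, 1 - c * q ^ k ≠ 0) (hq : ∀ k : ℕ, 1 - q * q ^ k ≠ 0) :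
    (1 - C (a + b - a * b) * X) * S q a b c - C (1 - c) = (C c - C (a * b * q) * X) * rescale q (S q a b c)
      - C ((1 - a) * (1 - b) / (1 - c)) * (X * ((C c - C (a * b * q) * X) * (S q a b c * rescale q (S q a b c)))) := by
  have hc0 : 1 - c ≠ 0 := by simpa using hc 0
  have l1 := L1 (a := a) (b := b) hc hq
  have l2 := L2 (a := a) (b := b) hc hq
  have hF := phi_mul_inv q a b c
  have hF' := congrArg (rescale q) hF
  rw [map_mul, map_one] at hF'
  unfold S
  rw [map_mul (rescale q)]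
  obtain ⟨F, hFd⟩ : ∃ F, F = phi q a b c := ⟨_, rfl⟩
  rw [← hFd] at l1 l2 hF hF' ⊢
  obtain ⟨W, hWd⟩ : ∃ W, W = phi q (a * q) (b * q) (c * q) := ⟨_, rfl⟩
  rw [← hWd] at l1 l2 ⊢
  obtain ⟨F', hF'd⟩ : ∃ F', F' = rescale q F := ⟨_, rfl⟩
  rw [← hF'd] at l1 hF'
  obtain ⟨W', hW'd⟩ : ∃ W', W' = rescale q W := ⟨_, rfl⟩
  rw [← hW'd] at l2 ⊢
  obtain ⟨Fi, hFi⟩ : ∃ Fi, Fi = F⁻¹ := ⟨_, rfl⟩
  rw [← hFi] at hF hF' ⊢
  obtain ⟨Fi', hFi'⟩ : ∃ Fi', Fi' = rescale q Fi := ⟨_, rfl⟩
  rw [← hFi'] at hF' ⊢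
  obtain ⟨L, hL⟩ : ∃ L, L = (C ((1 - a) * (1 - b) / (1 - c)) : PowerSeries K) := ⟨_, rfl⟩
  rw [← hL] at l1 ⊢
  obtain ⟨T, hT⟩ : ∃ T, T = (C (1 - c) : PowerSeries K) := ⟨_, rfl⟩
  rw [← hT] at l2 ⊢
  obtain ⟨U, hU⟩ : ∃ U, U = (C c - C (a * b * q) * X : PowerSeries K) := ⟨_, rfl⟩
  rw [← hU] at l2 ⊢
  obtain ⟨V, hV⟩ : ∃ V, V = (1 - C (a + b - a * b) * X : PowerSeries K) := ⟨_, rfl⟩
  rw [← hV] at l2 ⊢
  -- key identity
  have key : U * W' * (F - X * L * W) = F' * (V * W - T * F) := by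
    rw [← l2]
    rw [l1]
    ring
  linear_combination (-(Fi * Fi')) * key + (U * W' * Fi' + (F' * Fi') * T) * hF - (V * W * Fi - T) * hF'

theorem coeff_rec (hc : ∀ k : ℕ, 1 - c * q ^ k ≠ 0) (hq : ∀ k : ℕ, 1 - q * q ^ k ≠ 0) (n : ℕ) :
    (1 - c * q ^ (n + 1)) * (coeff (n + 1) (S q a b c) / (1 - c)) =
      ((a + b - a * b) - a * b * q * q ^ n) * (coeff n (S q a b c) / (1 - c))
      + (-((1 - a) * (1 - b) * c)) * ∑ p ∈ Finset.HasAntidiagonal.antidiagonal n,
          (q ^ p.2 * ((coeff p.1 (S q a b c) / (1 - c)) * (coeff p.2 (S q a b c) / (1 - c))))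
      + ((1 - a) * (1 - b) * (a * b * q)) * (if n = 0 then 0 else ∑ p ∈ Finset.HasAntidiagonal.antidiagonal (n - 1),
          (q ^ p.2 * ((coeff p.1 (S q a b c) / (1 - c)) * (coeff p.2 (S q a b c) / (1 - c))))) := by
  have hc0 : 1 - c ≠ 0 := by simpa using hc 0
  have h := riccati (a := a) (b := b) hc hq
  have hT : coeff (n + 1) (C (1 - c)) = 0 := by rw [coeff_C, if_neg (by omega : ¬ n + 1 = 0)]
  generalize C (1 - c) = T at h hT
  have h := congrArg (coeff (n + 1)) h
  have e : ∀ m, ∑ p ∈ Finset.HasAntidiagonal.antidiagonal m,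
          (q ^ p.2 * ((coeff p.1 (S q a b c) / (1 - c)) * (coeff p.2 (S q a b c) / (1 - c))))
      = coeff m (S q a b c * rescale q (S q a b c)) / (1 - c) ^ 2 := by
    intro m
    rw [coeff_mul, Finset.sum_div]
    apply Finset.sum_congr rfl
    intro p _
    rw [coeff_rescale]
    field_simp
  simp only [e]
  generalize S q a b c * rescale q (S q a b c) = SS at h ⊢
  obtain ⟨u, hu⟩ : ∃ u, u = a * b * q := ⟨_, rfl⟩
  obtain ⟨v, hv⟩ : ∃ v, v = a + b - a * b := ⟨_, rfl⟩
  obtain ⟨w, hw⟩ : ∃ w, w = (1 - a) * (1 - b) / (1 - c) := ⟨_, rfl⟩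
  have hw' : (1 - a) * (1 - b) = w * (1 - c) := by rw [hw]; field_simp
  rw [← hu, ← hv, ← hw] at h
  rw [← hu, ← hv, hw']
  rw [sub_mul, sub_mul, sub_mul, one_mul, map_sub, map_sub, map_sub, map_sub, mul_assoc, mul_assoc, mul_assoc,
      coeff_C_mul, coeff_C_mul, coeff_C_mul, coeff_C_mul, coeff_succ_X_mul, coeff_succ_X_mul, coeff_succ_X_mul,
      coeff_rescale, coeff_rescale, hT, map_sub, coeff_C_mul, coeff_C_mul] at h
  have e3 : coeff n (X * SS) = if n = 0 then 0 else coeff (n - 1) SS := by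
    cases n with
    | zero => simp
    | succ n => rw [coeff_succ_X_mul]; simp
  rw [e3] at h
  by_cases hn : n = 0
  · simp only [hn, if_true] at h ⊢
    field_simp
    field_simp at h
    linear_combination h
  · simp only [hn, if_false] at h ⊢
    field_simp
    field_simp at h
    linear_combination h

end general

/-- For every `n` there is `P_n ∈ ℤ[a,b,c,q]` with `γ_n / (1 - c) = P_n / ∏_{k≤n} (1 - c q^k)^{⌊(n+1)/(k+1)⌋}`, where
`∑ γ_n z^n = ₂φ₁(aq,bq;cq;q,z) / ₂φ₁(a,b;c;q,z)`. -/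
theorem result (n : ℕ) : ∃ P : RR,
    coeff n (phi vQ (vA * vQ) (vB * vQ) (vC * vQ) * (phi vQ vA vB vC)⁻¹) / (1 - vC)
      = algebraMap RR KK P / ∏ k ∈ Finset.range (n + 1), (1 - vC * vQ ^ k) ^ ((n + 1) / (k + 1)) := by
  have main : ∀ n : ℕ, Itg (DD pik n) (coeff n (S vQ vA vB vC) / (1 - vC)) := by
    intro n
    induction n using Nat.strong_induction_on with
    | _ n ih =>
      cases n with
      | zero =>
        refine ⟨1, ?_⟩
        have h0 : coeff 0 (S vQ vA vB vC) = 1 := by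
          rw [coeff_zero_eq_constantCoeff_apply, S, map_mul, constCoeff_phi, constantCoeff_inv, constCoeff_phi]
          simp
        have hc0 : 1 - vC ≠ 0 := by simpa using vC_ne 0
        rw [h0, map_DD]
        simp [hc0]
      | succ n =>
        refine Itg.div ?_ (coeff_rec (a := vA) (b := vB) vC_ne vQ_ne n)
        have hsum : ∀ m, m ≤ n → Itg (EE pik (n + 1)) (∑ p ∈ Finset.HasAntidiagonal.antidiagonal m,
            (vQ ^ p.2 * ((coeff p.1 (S vQ vA vB vC) / (1 - vC)) * (coeff p.2 (S vQ vA vB vC) / (1 - vC))))) := by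
          intro m hm
          have h : Itg (EE pik (n + 1)) (∑ p ∈ Finset.HasAntidiagonal.antidiagonal m,
              (algebraMap RR KK (MvPolynomial.X 3 ^ p.2) * ((coeff p.1 (S vQ vA vB vC) / (1 - vC)) * (coeff p.2 (S vQ vA vB vC) / (1 - vC))))) := by
            apply Itg.sum
            intro p hp
            rw [Finset.HasAntidiagonal.mem_antidiagonal] at hp
            apply Itg.smul
            exact ((ih p.1 (by omega)).mul (ih p.2 (by omega))).dvd (DD_mul_dvd pik p.1 p.2 (n + 1) (by omega))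
          simp only [map_pow] at h
          exact h
        apply Itg.add
        · apply Itg.add
          · have h := (ih n (by omega)).smul ((MvPolynomial.X 0 + MvPolynomial.X 1 - MvPolynomial.X 0 * MvPolynomial.X 1)
              - MvPolynomial.X 0 * MvPolynomial.X 1 * MvPolynomial.X 3 * MvPolynomial.X 3 ^ n)
            simp only [map_sub, map_add, map_mul, map_pow] at h
            exact h.dvd (DD_dvd pik n (n + 1) (by omega))
          · have h := (hsum n le_rfl).smul (-((1 - MvPolynomial.X 0) * (1 - MvPolynomial.X 1) * MvPolynomial.X 2))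
            simp only [map_neg, map_sub, map_mul, map_one] at h
            exact h
        · split_ifs with hn
          · exact ⟨0, by simp⟩
          · have h := (hsum (n - 1) (by omega)).smul ((1 - MvPolynomial.X 0) * (1 - MvPolynomial.X 1) * (MvPolynomial.X 0 * MvPolynomial.X 1 * MvPolynomial.X 3))
            simp only [map_sub, map_mul, map_one] at h
            exact h
  obtain ⟨P, hP⟩ := main n
  refine ⟨P, ?_⟩
  have hne := map_DD_ne n
  rw [map_DD] at hP hne
  rw [eq_div_iff hne]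
  exact hP

end Pool.Agent.Results.MP_2e34cc_co.DenominatorsShiftABC
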